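import Pool.Agent.H887Z.Mod.Sing
import Pool.Agent.H887Z.Mod.Reg2

/-!
The singular locus of the moduli space of degree `d` endomorphisms of projective `N`-space,
`N ≥ 2`, `d ≥ 2`, over an algebraically closed field of characteristic zero consists exactly of the
classes of the maps with a nontrivial automorphism.
-/

namespace Pool.Agent.Results.MP_807a54_ag.ASingLocus

open Pool.Agent.H887Z.Mod

theorem result (k : Type) [Field k] [IsAlgClosed k] [CharZero k] (N d : ℕ) (hN : 2 ≤ N)
    (hd : 2 ≤ d) (F : End k N d) :
    ¬ IsRegularLocalRing (Localization.AtPrime (pt F).asIdeal) ↔ HasNontrivialAut F :=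
  ⟨fun h => by_contra fun hF => h (regular_of_free hd F hF), singular_of_aut hN hd F⟩

end Pool.Agent.Results.MP_807a54_ag.ASingLocus
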